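import Mathlib
import Pool.Agent.Helper95.HofSet
import Pool.Agent.Helper95.HofMass

/-!
Hofstadter's set has positive lower asymptotic density.
-/

namespace Pool.Agent.Results.MP_81a89f_nt.PositiveLowerDensity

open Finset Pool.Agent.Helper95.HofSet

/-- the finite set of exponent vectors near `t * (4, 2, 1)` -/
def box (E t : ℕ) : Finset (ℕ × ℕ × ℕ) :=
  (Icc (4 * t - E) (4 * t + E)) ×ˢ ((Icc (2 * t - E) (2 * t + E)) ×ˢ (Icc (t - E) (t + E)))

lemma box_card (E t : ℕ) : (box E t).card ≤ (2 * E + 1) ^ 3 := by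
  unfold box
  rw [Finset.card_product, Finset.card_product, Nat.card_Icc, Nat.card_Icc, Nat.card_Icc]
  have h1 : 4 * t + E + 1 - (4 * t - E) ≤ 2 * E + 1 := by omega
  have h2 : 2 * t + E + 1 - (2 * t - E) ≤ 2 * E + 1 := by omega
  have h3 : t + E + 1 - (t - E) ≤ 2 * E + 1 := by omega
  calc (4 * t + E + 1 - (4 * t - E)) * ((2 * t + E + 1 - (2 * t - E)) * (t + E + 1 - (t - E))) ≤
      (2 * E + 1) * ((2 * E + 1) * (2 * E + 1)) :=
        Nat.mul_le_mul h1 (Nat.mul_le_mul h2 h3)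
    _ = (2 * E + 1) ^ 3 := by ring

lemma mem_box {E t p q r : ℕ} : (p, q, r) ∈ box E t ↔
    (4 * t - E ≤ p ∧ p ≤ 4 * t + E) ∧ (2 * t - E ≤ q ∧ q ≤ 2 * t + E) ∧
      (t - E ≤ r ∧ r ≤ t + E) := by
  simp [box]

/-- large deviation implies large potential -/
lemma psi_large {D : ℕ} (p q r j : ℕ)
    (h : (D : ℤ) ≤ lA p q r ∨ (D : ℤ) ≤ -lA p q r ∨ (D : ℤ) ≤ lB p q r ∨ (D : ℤ) ≤ -lB p q r) :
    z ^ D ≤ psi p q r j := by
  have hz := z_pos
  have hz1 := z_one
  have mono : ∀ n : ℤ, (D : ℤ) ≤ n → z ^ D ≤ z ^ n := by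
    intro n hn
    rw [← zpow_natCast]
    exact zpow_le_zpow_right₀ hz1.le hn
  have a1 : (1 : ℝ) ≤ hAp j := by exact_mod_cast hAp_ge j
  have a2 : (1 : ℝ) ≤ hAm j := by exact_mod_cast hAm_ge j
  have a3 : (1 : ℝ) ≤ hBp j := by exact_mod_cast hBp_ge j
  have a4 : (1 : ℝ) ≤ hBm j := by exact_mod_cast hBm_ge j
  have p1 : 0 < z ^ lA p q r := by positivity
  have p2 : 0 < z ^ (-lA p q r) := by positivity
  have p3 : 0 < z ^ lB p q r := by positivity
  have p4 : 0 < z ^ (-lB p q r) := by positivity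
  unfold psi
  rcases h with h | h | h | h <;> have := mono _ h <;> nlinarith

lemma terminal (D : ℕ) (hD : (24000000 : ℝ) ≤ z ^ D) (t p q r j : ℕ) (h1 : 7 * t ≤ p + q + r)
    (h2 : p + q + r ≤ 7 * t + 2) :
    (1 : ℝ) / 2 ≤ (if (p, q, r) ∈ box (10 * D + 10) t then 1 else 0) + Fm (7 * t) p q r j := by
  have hmu := mu_pos
  obtain ⟨g, hg⟩ : ∃ g, p + q + r = 7 * t + g := ⟨p + q + r - 7 * t, by omega⟩
  have hg2 : g ≤ 2 := by omega
  have hratio : mu ^ (p + q + r) / mu ^ (7 * t) = mu ^ g := by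
    rw [hg, pow_add]
    field_simp
  have hmu1 : (1 : ℝ) ≤ mu ^ g ∧ mu ^ g ≤ 2 := by
    have : g = 0 ∨ g = 1 ∨ g = 2 := by omega
    rcases this with h | h | h <;> rw [h] <;> unfold mu <;> norm_num
  have hpsi := psi_nonneg p q r j
  unfold Fm
  rw [hratio]
  split_ifs with hb
  · nlinarith [hmu1.1, hmu1.2]
  · have hlarge : (24000000 : ℝ) ≤ psi p q r j := by
      refine hD.trans (psi_large p q r j ?_)
      by_contra hcon
      push Not at hcon
      obtain ⟨c1, c2, c3, c4⟩ := hcon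
      apply hb
      rw [mem_box]
      unfold lA at c1 c2
      unfold lB at c3 c4
      omega
    nlinarith [hmu1.1, hmu1.2]

lemma exists_mult (D : ℕ) (hD : (24000000 : ℝ) ≤ z ^ D) (t : ℕ) :
    ∃ P Q R, (P, Q, R) ∈ box (10 * D + 10) t ∧
      1 / (2 * ((2 * (10 * D + 10) + 1 : ℕ) : ℝ) ^ 3) ≤ pr (7 * t) P Q R (7 * t) 0 0 0 20 := by
  have h := comparison (7 * t) (box (10 * D + 10) t) (fun p q r j h1 h2 => terminal D hD t p q r j h1 h2)
    (7 * t) 0 0 0 20 (by norm_num) (by norm_num) (by omega) (by omega)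
  have hF : Fm (7 * t) 0 0 0 20 ≤ 0 := by
    unfold Fm
    have hmu := mu_pos
    have h1 : 0 ≤ 1 / 32000000 * (mu ^ (0 + 0 + 0) / mu ^ (7 * t)) := by positivity
    have h2 : psi 0 0 0 20 - 8000000 ≤ 0 := by
      unfold psi lA lB
      have b1 : (hAp 20 : ℝ) ≤ 165 := by exact_mod_cast hAp_le 20
      have b2 : (hAm 20 : ℝ) ≤ 1776 := by exact_mod_cast hAm_le 20
      have b3 : (hBp 20 : ℝ) ≤ 45 := by exact_mod_cast hBp_le 20
      have b4 : (hBm 20 : ℝ) ≤ 281 := by exact_mod_cast hBm_le 20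
      norm_num
      linarith
    exact mul_nonpos_of_nonneg_of_nonpos h1 h2
  by_contra hcon
  push Not at hcon
  set C : ℝ := ((2 * (10 * D + 10) + 1 : ℕ) : ℝ) ^ 3 with hC
  have hCpos : 0 < C := by positivity
  have hne : (box (10 * D + 10) t).Nonempty := by
    refine ⟨(4 * t, 2 * t, t), ?_⟩
    rw [mem_box]
    omega
  have hsum : ∑ k ∈ box (10 * D + 10) t, pr (7 * t) k.1 k.2.1 k.2.2 (7 * t) 0 0 0 20 <
      ∑ k ∈ box (10 * D + 10) t, 1 / (2 * C) := by
    apply Finset.sum_lt_sum_of_nonempty hne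
    rintro ⟨P, Q, R⟩ hk
    exact hcon P Q R hk
  rw [Finset.sum_const, nsmul_eq_mul] at hsum
  have hcard : ((box (10 * D + 10) t).card : ℝ) ≤ C := by
    rw [hC]
    exact_mod_cast box_card _ _
  have : ((box (10 * D + 10) t).card : ℝ) * (1 / (2 * C)) ≤ 1 / 2 := by
    calc ((box (10 * D + 10) t).card : ℝ) * (1 / (2 * C)) ≤ C * (1 / (2 * C)) :=
          mul_le_mul_of_nonneg_right hcard (by positivity)
      _ = 1 / 2 := by field_simp
  linarith

/-- The number of elements of Hofstadter's set in `[1, N]`. -/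
noncomputable def hofCount (N : ℕ) : ℕ := (hofSet ∩ Set.Icc 1 (N : ℤ)).ncard

lemma hofCount_ge (P Q R N : ℕ) (hN : 2 * mult P Q R ≤ N) :
    (cells P Q R 0 0 0 20).card ≤ 21 * hofCount N := by
  classical
  set M := mult P Q R with hM
  have hMpos : 0 < M := mult_pos P Q R
  let f : ℕ → ℤ := fun y => 2 * (M : ℤ) - ((y / 21 : ℕ) : ℤ)
  have h1 : (cells P Q R 0 0 0 20).card ≤ 21 * ((cells P Q R 0 0 0 20).image f).card := by
    apply Finset.card_le_mul_card_image
    intro b _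
    by_cases hex : ∃ y, f y = b
    · obtain ⟨y0, hy0⟩ := hex
      have hsub : (cells P Q R 0 0 0 20).filter (fun y => f y = b) ⊆
          Finset.Ico (21 * (y0 / 21)) (21 * (y0 / 21) + 21) := by
        intro y hy
        rw [Finset.mem_filter] at hy
        have h2 : f y = f y0 := hy.2.trans hy0.symm
        have h3 : y / 21 = y0 / 21 := by
          simp only [f] at h2
          omega
        rw [Finset.mem_Ico]
        omega
      have := Finset.card_le_card hsub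
      rw [Nat.card_Ico] at this
      omega
    · have : (cells P Q R 0 0 0 20).filter (fun y => f y = b) = ∅ := by
        rw [Finset.filter_eq_empty_iff]
        intro y _ hy
        exact hex ⟨y, hy⟩
      rw [this]
      simp
  have h2 : ((cells P Q R 0 0 0 20).image f).card ≤ hofCount N := by
    unfold hofCount
    rw [← Set.ncard_coe_finset]
    apply Set.ncard_le_ncard _ ((Set.finite_Icc _ _).inter_of_right _)
    intro x hx
    rw [Finset.mem_coe, Finset.mem_image] at hx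
    obtain ⟨y, hy, rfl⟩ := hx
    obtain ⟨h3, -, -, h4⟩ := mem_cells.1 hy
    refine ⟨h4.2.2, ?_⟩
    rw [Set.mem_Icc]
    have h5 : y / 21 < M := by omega
    simp only [f]
    have h6 : 2 * (M : ℤ) ≤ N := by exact_mod_cast hN
    constructor
    · have : ((y / 21 : ℕ) : ℤ) < M := by exact_mod_cast h5
      omega
    · omega
  calc (cells P Q R 0 0 0 20).card ≤ 21 * ((cells P Q R 0 0 0 20).image f).card := h1
    _ ≤ 21 * hofCount N := Nat.mul_le_mul_left _ h2

lemma pow720 (t : ℕ) : 720 ^ t = 2 ^ (4 * t) * 3 ^ (2 * t) * 5 ^ t := by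
  rw [pow_mul, pow_mul, ← mul_pow, ← mul_pow]
  norm_num

lemma pow30 (E : ℕ) : 30 ^ E = 2 ^ E * 3 ^ E * 5 ^ E := by
  rw [← mul_pow, ← mul_pow]
  norm_num

/-- explicit linear lower bound -/
theorem linear_lower_bound : ∃ c : ℝ, 0 < c ∧ ∃ N₀ : ℕ, ∀ N : ℕ, N₀ ≤ N →
    c * N ≤ (hofCount N : ℝ) := by
  obtain ⟨D, hD⟩ := pow_unbounded_of_one_lt (24000000 : ℝ) z_one
  set E := 10 * D + 10 with hE
  set C : ℝ := ((2 * E + 1 : ℕ) : ℝ) ^ 3 with hC
  have hCpos : 0 < C := by positivity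
  refine ⟨1 / (42 * C) * (1 / (1440 * 30 ^ E * 30 ^ E)), by positivity, 2 * 30 ^ E, ?_⟩
  intro N hN
  -- the largest `t` with `2 * 720^t * 30^E ≤ N`
  have hex : ∃ t, 2 * 720 ^ t * 30 ^ E ≤ N ∧ N < 2 * 720 ^ (t + 1) * 30 ^ E := by
    have hP : ∃ t, N < 2 * 720 ^ t * 30 ^ E := by
      obtain ⟨t, ht⟩ := pow_unbounded_of_one_lt N (by norm_num : 1 < 720)
      refine ⟨t, ht.trans_le ?_⟩
      have : 1 ≤ 30 ^ E := Nat.one_le_pow _ _ (by norm_num)
      nlinarith [Nat.zero_le (720 ^ t)]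
    classical
    let s := Nat.find hP
    have hs : N < 2 * 720 ^ s * 30 ^ E := Nat.find_spec hP
    have hs0 : s ≠ 0 := by
      intro h0
      rw [h0] at hs
      simp at hs
      omega
    obtain ⟨t, ht⟩ := Nat.exists_eq_succ_of_ne_zero hs0
    refine ⟨t, ?_, ?_⟩
    · have := Nat.find_min hP (m := t) (by
        show t < s
        omega)
      push Not at this
      exact this
    · rw [ht] at hs
      exact hs
  obtain ⟨t, ht1, ht2⟩ := hex
  obtain ⟨P, Q, R, hbox, hpr⟩ := exists_mult D hD.le t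
  rw [mem_box] at hbox
  obtain ⟨⟨b1, b2⟩, ⟨b3, b4⟩, ⟨b5, b6⟩⟩ := hbox
  -- size of the multiplier
  have hup : mult P Q R ≤ 720 ^ t * 30 ^ E := by
    unfold mult
    calc 2 ^ P * 3 ^ Q * 5 ^ R ≤ 2 ^ (4 * t + E) * 3 ^ (2 * t + E) * 5 ^ (t + E) := by
          gcongr <;> norm_num
      _ = 720 ^ t * 30 ^ E := by
          rw [pow720, pow30, pow_add, pow_add, pow_add]
          ring
  have hlow : 720 ^ t ≤ mult P Q R * 30 ^ E := by
    unfold mult
    calc 720 ^ t = 2 ^ (4 * t) * 3 ^ (2 * t) * 5 ^ t := pow720 t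
      _ ≤ 2 ^ (P + E) * 3 ^ (Q + E) * 5 ^ (R + E) := by
          gcongr <;> norm_num <;> omega
      _ = 2 ^ P * 3 ^ Q * 5 ^ R * 30 ^ E := by
          rw [pow30, pow_add, pow_add, pow_add]
          ring
  have hcount := count (7 * t) P Q R (7 * t) 0 0 0 20 good_start
  have hge := hofCount_ge P Q R N (by
    calc 2 * mult P Q R ≤ 2 * (720 ^ t * 30 ^ E) := Nat.mul_le_mul_left _ hup
      _ = 2 * 720 ^ t * 30 ^ E := by ring
      _ ≤ N := ht1)
  have hm0 : mult 0 0 0 = 1 := by simp [mult]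
  rw [hm0] at hcount
  norm_num at hcount
  have hgeR : ((cells P Q R 0 0 0 20).card : ℝ) ≤ 21 * hofCount N := by exact_mod_cast hge
  have hlowR : (720 : ℝ) ^ t ≤ mult P Q R * 30 ^ E := by exact_mod_cast hlow
  have ht2R : (N : ℝ) ≤ 2 * 720 ^ (t + 1) * 30 ^ E := by exact_mod_cast ht2.le
  have hMR : (0 : ℝ) ≤ mult P Q R := by positivity
  have h30 : (0 : ℝ) < 30 ^ E := by positivity
  have s1 : 1 / (2 * C) * mult P Q R ≤ 21 * hofCount N := by
    calc 1 / (2 * C) * mult P Q R ≤ pr (7 * t) P Q R (7 * t) 0 0 0 20 * mult P Q R :=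
          mul_le_mul_of_nonneg_right hpr hMR
      _ ≤ (cells P Q R 0 0 0 20).card := hcount
      _ ≤ 21 * hofCount N := hgeR
  have s2 : (N : ℝ) ≤ 1440 * 30 ^ E * 30 ^ E * mult P Q R := by
    calc (N : ℝ) ≤ 2 * 720 ^ (t + 1) * 30 ^ E := ht2R
      _ = 1440 * 30 ^ E * 720 ^ t := by ring
      _ ≤ 1440 * 30 ^ E * (mult P Q R * 30 ^ E) := by
          apply mul_le_mul_of_nonneg_left hlowR (by positivity)
      _ = 1440 * 30 ^ E * 30 ^ E * mult P Q R := by ring
  have s3 : 1 / (42 * C) * (1 / (1440 * 30 ^ E * 30 ^ E)) * N ≤ 1 / (42 * C) * mult P Q R := by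
    rw [mul_assoc]
    apply mul_le_mul_of_nonneg_left _ (by positivity)
    rw [one_div, inv_mul_le_iff₀ (by positivity)]
    exact s2
  have s4 : 1 / (42 * C) * mult P Q R = (1 / (2 * C) * mult P Q R) / 21 := by
    field_simp
    ring
  rw [s4] at s3
  linarith

/-- **Hofstadter's set has positive lower asymptotic density.** -/
theorem result :
    0 < Filter.liminf (fun N : ℕ => ((hofSet ∩ Set.Icc 1 (N : ℤ)).ncard : ℝ) / N) Filter.atTop := by
  obtain ⟨c, hc, N₀, h⟩ := linear_lower_bound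
  refine lt_of_lt_of_le hc ?_
  apply Filter.le_liminf_of_le
  · apply Filter.IsBoundedUnder.isCoboundedUnder_ge
    refine Filter.isBoundedUnder_of ⟨1, fun N => ?_⟩
    apply div_le_one_of_le₀ _ (Nat.cast_nonneg N)
    have : (hofSet ∩ Set.Icc 1 (N : ℤ)).ncard ≤ (Set.Icc 1 (N : ℤ)).ncard :=
      Set.ncard_le_ncard Set.inter_subset_right (Set.finite_Icc _ _)
    have h2 : (Set.Icc 1 (N : ℤ)).ncard = N := by
      rw [← Finset.coe_Icc, Set.ncard_coe_finset]
      simp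
    rw [h2] at this
    exact_mod_cast this
  · filter_upwards [Filter.eventually_ge_atTop (max N₀ 1)] with N hN
    have h1 : N₀ ≤ N := le_trans (le_max_left _ _) hN
    have h2 : 1 ≤ N := le_trans (le_max_right _ _) hN
    rw [le_div_iff₀ (by exact_mod_cast h2)]
    exact h N h1

end Pool.Agent.Results.MP_81a89f_nt.PositiveLowerDensity
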